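import Pool.Agent.H96.LS.Fam2
import Pool.Graph.R_seed8.H95R2.Leh.ClsA
import Pool.Graph.R_seed8.H95R2.Leh.ClsB

set_option autoImplicit false

/-!
# Class bounds for `Fam2`

Adapted from the library modules `H95R2.Leh.ClsA` and `H95R2.Leh.ClsB`: only the state of the
large prime has to satisfy the sharp closeness.
-/

namespace Pool.Agent.H96.LS

open Finset Pool.Agent.H95R2.Leh Pool.Agent.H95R2.Leh.CB

/-- the general counting lemma for the classes `Cls` -/
lemma cls_gen {k : ℕ} {R R0 W : ℝ} {St : ℕ → ℕ → Prop} (hF : Fam2 k R R0 W St) {y P z P' Y B : ℝ}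
    (hy : 0 < y) (hP : 2 * W ≤ P) (hP' : 32 * R0 ≤ P') (hY : 1 ≤ Y) (hB0 : 0 ≤ B)
    (hB : ∀ (N s : ℕ) (S : Finset ℕ), 0 < N → St N s → P' / 2 < (s : ℝ) →
      (N : ℝ) ≤ 2 * (k * Nat.totient N) →
      (∀ Q ∈ S, 1 ≤ Q ∧ Y / 2 < (Q : ℝ) ∧ (Q : ℝ) ≤ Y ∧ Near k N (16 * R / P) Q ∧
        ∀ p : ℕ, p.Prime → p ∣ Q → P' / 2 ≤ (p : ℝ)) → (S.card : ℝ) ≤ B) :
    ((Cls St y P z P' Y).card : ℝ) ≤
      (((DD St (2 * y / Y) P').card : ℝ) + (DD St (y / Y) P').card) * B := by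
  classical
  have hR := hF.one
  have hRR := hF.le
  have hWW := hF.large
  -- the splitting prime
  let pr : ℕ → ℕ → Prop := fun D s => s.Prime ∧ s ∣ D ∧ P' / 2 < (s : ℝ) ∧ (s : ℝ) ≤ P' ∧
    Y / 2 < (upp D s : ℝ) ∧ (upp D s : ℝ) ≤ Y ∧ (upp D s : ℝ) ≤ z * s
  let sD : ℕ → ℕ := fun D => if h : ∃ s, pr D s then h.choose else 0
  have hsD : ∀ D, (∃ s, pr D s) → pr D (sD D) := by
    intro D h
    simp only [sD, dif_pos h]
    exact h.choose_spec
  -- properties of the members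
  have hmem : ∀ D ∈ Cls St y P z P' Y, (1 ≤ D ∧ (D : ℝ) ≤ y ∧ y / 2 < (D : ℝ) ∧
      ∃ q : ℕ, P / 2 < (q : ℝ) ∧ (q : ℝ) ≤ P ∧ St D q) ∧ pr D (sD D) := by
    intro D hD
    unfold Cls at hD
    rw [mem_filter] at hD
    obtain ⟨hD1, hD2⟩ := hD
    unfold DD at hD1
    rw [mem_filter, mem_Icc] at hD1
    refine ⟨⟨hD1.1.1, ?_, hD1.2.1, hD1.2.2⟩, hsD D hD2⟩
    exact (Nat.le_floor_iff hy.le).mp hD1.1.2
  have hmem2 : ∀ D ∈ Cls St y P z P' Y, seg D (sD D) * upp D (sD D) = D ∧ 0 < seg D (sD D) ∧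
      0 < upp D (sD D) ∧ St (seg D (sD D)) (sD D) := by
    intro D hD
    obtain ⟨⟨h1, h2, h3, q, hq1, hq2, hq3⟩, hp⟩ := hmem D hD
    have h4 := seg_mul_upp (s := sD D) (hF.fam.sqf D q hq3)
    have h5 : 0 < seg D (sD D) * upp D (sD D) := by rw [h4]; exact h1
    exact ⟨h4, Nat.pos_of_mul_pos_right h5, Nat.pos_of_mul_pos_left h5,
      hF.fam.sub D q (sD D) hq3 hp.1 hp.2.1⟩
  have hmaps : ∀ D ∈ Cls St y P z P' Y,
      seg D (sD D) ∈ DD St (2 * y / Y) P' ∪ DD St (y / Y) P' := by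
    intro D hD
    obtain ⟨⟨h1, h2, h3, q, hq1, hq2, hq3⟩, hp⟩ := hmem D hD
    obtain ⟨h4, h5, h6, h7⟩ := hmem2 D hD
    obtain ⟨hp1, hp2, hp3, hp4, hp5, hp6, hp7⟩ := hp
    set N := seg D (sD D) with hN
    set Q := upp D (sD D) with hQ
    have hDNQ : (N : ℝ) * Q = D := by exact_mod_cast h4
    have hN0 : (0 : ℝ) < N := by exact_mod_cast h5
    have hY0 : 0 < Y := by linarith
    have hup : (N : ℝ) ≤ 2 * y / Y := by
      rw [le_div_iff₀ hY0]
      nlinarith
    have hlo : y / Y / 2 < (N : ℝ) := by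
      rw [div_div, div_lt_iff₀ (by positivity)]
      nlinarith
    have hN1 : 1 ≤ N := h5
    rw [mem_union]
    rcases lt_or_ge (y / Y) (N : ℝ) with hc | hc
    · left
      unfold DD
      rw [mem_filter, mem_Icc]
      refine ⟨⟨hN1, Nat.le_floor hup⟩, ?_, sD D, hp3, hp4, h7⟩
      have : 2 * y / Y / 2 = y / Y := by ring
      rw [this]
      exact hc
    · right
      unfold DD
      rw [mem_filter, mem_Icc]
      exact ⟨⟨hN1, Nat.le_floor hc⟩, hlo, sD D, hp3, hp4, h7⟩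
  have hcard := card_eq_sum_card_fiberwise (s := Cls St y P z P' Y)
    (t := DD St (2 * y / Y) P' ∪ DD St (y / Y) P') (f := fun D => seg D (sD D)) hmaps
  have hfib : ∀ N ∈ DD St (2 * y / Y) P' ∪ DD St (y / Y) P',
      ((((Cls St y P z P' Y).filter (fun D => seg D (sD D) = N)).card : ℕ) : ℝ) ≤ B := by
    intro N _
    set Fb := (Cls St y P z P' Y).filter (fun D => seg D (sD D) = N) with hFb
    rcases Fb.eq_empty_or_nonempty with he | ⟨D0, hD0⟩
    · rw [he, card_empty, Nat.cast_zero]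
      exact hB0
    have hinj : Set.InjOn (fun D => upp D (sD D)) (Fb : Set ℕ) := by
      intro D hD D' hD' hDD
      rw [mem_coe, hFb, mem_filter] at hD hD'
      have e1 := (hmem2 D hD.1).1
      have e2 := (hmem2 D' hD'.1).1
      rw [← e1, ← e2, hD.2, hD'.2]
      have : upp D (sD D) = upp D' (sD D') := hDD
      rw [this]
    rw [← card_image_of_injOn hinj]
    rw [hFb, mem_filter] at hD0
    obtain ⟨hD0, hD0N⟩ := hD0
    obtain ⟨⟨h1, h2, h3, q, hq1, hq2, hq3⟩, hp⟩ := hmem D0 hD0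
    obtain ⟨h4, h5, h6, h7⟩ := hmem2 D0 hD0
    rw [hD0N] at h4 h5 h7
    apply hB N (sD D0) _ h5 h7 hp.2.2.1
    · exact tot_of_state hF.fam hq3 (by linarith) (Dvd.intro _ h4)
    · intro Q hQ
      rw [mem_image] at hQ
      obtain ⟨D, hD, rfl⟩ := hQ
      rw [hFb, mem_filter] at hD
      obtain ⟨hD, hDN⟩ := hD
      obtain ⟨⟨h1', h2', h3', q', hq1', hq2', hq3'⟩, hp'⟩ := hmem D hD
      obtain ⟨h4', h5', h6', h7'⟩ := hmem2 D hD
      obtain ⟨hp1, hp2, hp3, hp4, hp5, hp6, hp7⟩ := hp'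
      refine ⟨h6', hp5, hp6, ?_, ?_⟩
      · apply near_of_state2 hF hq3' hq1' (by linarith)
        rw [← hDN]
        exact h4'.symm
      · intro p hpp hpd
        have h8 : ((sD D : ℕ) : ℝ) ≤ p := by exact_mod_cast le_of_dvd_upp hpp hpd
        linarith
  calc ((Cls St y P z P' Y).card : ℝ) =
      ∑ N ∈ DD St (2 * y / Y) P' ∪ DD St (y / Y) P',
        ((((Cls St y P z P' Y).filter (fun D => seg D (sD D) = N)).card : ℕ) : ℝ) := by
        rw [hcard]; push_cast; rfl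
    _ ≤ ∑ N ∈ DD St (2 * y / Y) P' ∪ DD St (y / Y) P', B := sum_le_sum hfib
    _ = ((DD St (2 * y / Y) P' ∪ DD St (y / Y) P').card : ℝ) * B := by
        rw [sum_const, nsmul_eq_mul]
    _ ≤ _ := by
        apply mul_le_mul_of_nonneg_right _ hB0
        exact_mod_cast card_union_le _ _

theorem cls_farey {k : ℕ} {R R0 W : ℝ} {St : ℕ → ℕ → Prop} (hF : Fam2 k R R0 W St) {y P z P' Y : ℝ}
    (hy : 0 < y) (hP : 2 * W ≤ P) (hP' : 32 * R0 ≤ P') (hY : 1 ≤ Y) :
    ((Cls St y P z P' Y).card : ℝ) ≤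
      (((DD St (2 * y / Y) P').card : ℝ) + (DD St (y / Y) P').card) *
        (1 + 4 * (16 * R / P) * Y ^ 2) := by
  have hR := hF.one
  have hRR := hF.le
  have hWW := hF.large
  have hP0 : 0 < P := by linarith
  apply cls_gen hF hy hP hP' hY (by positivity)
  intro N s S hN _ _ hk hS
  exact farey_count hN hk (by positivity) hY S fun Q hQ =>
    ⟨(hS Q hQ).1, (hS Q hQ).2.2.1, (hS Q hQ).2.2.2.1⟩

theorem cls_rough : ∃ C : ℝ, 1 ≤ C ∧ ∀ (k : ℕ) (R R0 W : ℝ) (St : ℕ → ℕ → Prop), Fam2 k R R0 W St →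
    ∀ y P z P' Y : ℝ, 0 < y → 2 * W ≤ P → 32 * R0 ≤ P' → 1 ≤ Y → 1 ≤ (16 * R / P) * Y ^ 2 →
    400 * ((16 * R / P) * Y ^ 2) ≤ P' ^ 2 →
    ((Cls St y P z P' Y).card : ℝ) ≤
      (((DD St (2 * y / Y) P').card : ℝ) + (DD St (y / Y) P').card) *
        (1 + C * ((16 * R / P) * Y ^ 2) * (1 + Real.log (1 + Real.log P)) /
          Real.log (2 + (16 * R / P) * Y ^ 2)) := by
  obtain ⟨C, hC1, hC⟩ := rough_count
  refine ⟨C, hC1, ?_⟩
  intro k R R0 W St hF y P z P' Y hy hP hP' hY h1 h2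
  have hR := hF.one
  have hRR := hF.le
  have hWW := hF.large
  have hP0 : 0 < P := by linarith
  have hη0 : 0 < 16 * R / P := by positivity
  have hη1 : 16 * R / P ≤ 1 / 16 := by
    rw [div_le_div_iff₀ hP0 (by norm_num)]
    linarith
  have hlogP : 0 ≤ Real.log P := Real.log_nonneg (by linarith)
  have hinv : 1 / (16 * R / P) = P / (16 * R) := by rw [one_div_div]
  have hlog1 : 0 ≤ Real.log (1 / (16 * R / P)) := by
    apply Real.log_nonneg
    rw [hinv, le_div_iff₀ (by positivity)]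
    linarith
  have hlog2 : Real.log (1 / (16 * R / P)) ≤ Real.log P := by
    apply Real.log_le_log (by positivity)
    rw [hinv, div_le_iff₀ (by positivity)]
    nlinarith
  have hlog3 : Real.log (1 + Real.log (1 / (16 * R / P))) ≤ Real.log (1 + Real.log P) :=
    Real.log_le_log (by linarith) (by linarith)
  have hlog4 : 0 ≤ Real.log (1 + Real.log P) := Real.log_nonneg (by linarith)
  have hden : 0 < Real.log (2 + (16 * R / P) * Y ^ 2) := Real.log_pos (by linarith)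
  apply cls_gen hF hy hP hP' hY (by positivity)
  intro N s S hN hst hs hk hS
  have hN' : (0 : ℝ) < N := by exact_mod_cast hN
  have hsR : 16 * R0 ≤ (s : ℝ) := by linarith
  have hs0 : (0 : ℝ) < s := by linarith
  have h3 := hF.fam.small N s hst hsR
  have h4 : |(k : ℝ) * Nat.totient N - N| ≤ N / 2 := by
    by_contra hcon
    rw [not_le] at hcon
    have : N / 2 * (s : ℝ) < |(k : ℝ) * Nat.totient N - N| * s := by
      exact mul_lt_mul_of_pos_right hcon hs0
    nlinarith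
  have h5 := (abs_le.mp h4).2
  have h6 := hC k N (16 * R / P) Y (P' / 2) S hN hk (by linarith) hη0 hη1 hY h1 (by linarith)
    (by nlinarith) (fun Q hQ => ⟨(hS Q hQ).2.1, (hS Q hQ).2.2.1, (hS Q hQ).2.2.2.1, (hS Q hQ).2.2.2.2⟩)
  refine h6.trans ?_
  gcongr

/-- the cofactor is determined by `N` -/
theorem core {k : ℕ} {R R0 W : ℝ} {St : ℕ → ℕ → Prop} (hF : Fam2 k R R0 W St) {y P z : ℝ}
    (hP : 2 * W ≤ P) (hz4 : 4 * (16 * R / P) * z ^ 2 < 1) {D D' N Q Q' : ℕ}
    (hD : D ∈ DD St y P) (hD' : D' ∈ DD St y P) (h : D = N * Q) (h' : D' = N * Q')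
    (hQ : (Q : ℝ) ≤ z) (hQ' : (Q' : ℝ) ≤ z) : D = D' := by
  obtain ⟨a1, a2, a3, q, a4, a5, a6⟩ := mem_DD hD
  obtain ⟨b1, b2, b3, q', b4, b5, b6⟩ := mem_DD hD'
  have hR := hF.one
  have hRR := hF.le
  have hWW := hF.large
  have hPpos : 0 < P := by linarith
  have hN : 0 < N := by
    rcases Nat.eq_zero_or_pos N with h0 | h0
    · rw [h, h0, zero_mul] at a1; omega
    · exact h0
  have hQ1 : 1 ≤ Q := by
    rcases Nat.eq_zero_or_pos Q with h0 | h0
    · rw [h, h0, mul_zero] at a1; omega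
    · exact h0
  have hQ1' : 1 ≤ Q' := by
    rcases Nat.eq_zero_or_pos Q' with h0 | h0
    · rw [h', h0, mul_zero] at b1; omega
    · exact h0
  have h1 := near_of_state2 hF a6 a4 (by linarith) h
  have h2 := near_of_state2 hF b6 b4 (by linarith) h'
  have h3 := tot_of_state hF.fam a6 (by linarith) (Dvd.intro Q h.symm)
  have h4 := farey_unique hN h3 (by positivity) hz4 hQ1 hQ1' h1 h2 hQ hQ'
  rw [h, h', h4]

theorem cls_prime : ∃ C : ℝ, 1 ≤ C ∧ ∀ (k : ℕ) (R R0 W : ℝ) (St : ℕ → ℕ → Prop), Fam2 k R R0 W St →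
    ∀ y P z P' Y : ℝ, 0 < y → 2 * W ≤ P → 2 ≤ P' → 0 < Y → 0 < z →
    4 * (16 * R / P) * z ^ 2 < 1 →
    ((Cls St y P z P' Y).card : ℝ) ≤
      (((DD St (2 * y / Y) P').card : ℝ) + (DD St (y / Y) P').card) *
        (C * P' / Real.log P') := by
  classical
  obtain ⟨C, hC1, hC⟩ := primes_dyadic
  refine ⟨C, hC1, ?_⟩
  intro k R R0 W St hF y P z P' Y hy hP hP' hY hz hz4
  have h1 : ∀ D ∈ Cls St y P z P' Y, D ∈ DD St y P ∧ ∃ s : ℕ, s.Prime ∧ s ∣ D ∧
      P' / 2 < (s : ℝ) ∧ (s : ℝ) ≤ P' ∧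
      Y / 2 < (upp D s : ℝ) ∧ (upp D s : ℝ) ≤ Y ∧ (upp D s : ℝ) ≤ z * s := by
    intro D hD
    unfold Cls at hD
    rw [mem_filter] at hD
    exact hD
  have h2 : ∀ D ∈ Cls St y P z P' Y, ∃ s : ℕ, s.Prime ∧ s ∣ D ∧
      P' / 2 < (s : ℝ) ∧ (s : ℝ) ≤ P' ∧
      Y / 2 < (upp D s : ℝ) ∧ (upp D s : ℝ) ≤ Y ∧ (upp D s : ℝ) ≤ z * s := fun D hD => (h1 D hD).2
  choose! sD hsD using h2
  have hcard : (Cls St y P z P' Y).card ≤
      ((DD St (2 * y / Y) P' ∪ DD St (y / Y) P') ×ˢ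
        ((Finset.Icc 1 ⌊P'⌋₊).filter (fun p : ℕ => p.Prime ∧ P' / 2 < (p : ℝ)))).card := by
    refine Finset.card_le_card_of_injOn (fun D => (seg D (sD D), sD D)) ?_ ?_
    · intro D hD
      rw [mem_coe] at hD
      obtain ⟨a0, -⟩ := h1 D hD
      obtain ⟨a1, a2, a3, a4, a5, a6, a7⟩ := hsD D hD
      obtain ⟨b1, b2, b3, q, b4, b5, b6⟩ := mem_DD a0
      rw [mem_coe, mem_product]
      have hsq := hF.fam.sqf D q b6
      have hmul := seg_mul_upp (s := sD D) hsq
      have hst := hF.fam.sub D q (sD D) b6 a1 a2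
      have hmulR : (seg D (sD D) : ℝ) * upp D (sD D) = D := by exact_mod_cast hmul
      have hu : (0 : ℝ) < upp D (sD D) := by exact_mod_cast (upp_pos : 1 ≤ upp D (sD D))
      have hs0 : (0 : ℝ) < seg D (sD D) := by exact_mod_cast (seg_pos : 1 ≤ seg D (sD D))
      constructor
      · simp only
        rw [mem_union]
        rcases le_or_gt (seg D (sD D) : ℝ) (y / Y) with h | h
        · right
          refine DD_of seg_pos h ?_ a3 a4 hst
          rw [div_div, div_lt_iff₀ (by positivity)]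
          nlinarith
        · left
          refine DD_of seg_pos ?_ ?_ a3 a4 hst
          · rw [le_div_iff₀ hY]
            nlinarith
          · rw [show 2 * y / Y / 2 = y / Y by ring]
            exact h
      · simp only
        rw [mem_filter, mem_Icc]
        exact ⟨⟨a1.one_lt.le, Nat.le_floor a4⟩, a1, a3⟩
    · intro D hD D' hD' heq
      rw [mem_coe] at hD hD'
      simp only [Prod.mk.injEq] at heq
      obtain ⟨a0, -⟩ := h1 D hD
      obtain ⟨a1, a2, a3, a4, a5, a6, a7⟩ := hsD D hD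
      obtain ⟨a0', -⟩ := h1 D' hD'
      obtain ⟨a1', a2', a3', a4', a5', a6', a7'⟩ := hsD D' hD'
      obtain ⟨b1, b2, b3, q, b4, b5, b6⟩ := mem_DD a0
      obtain ⟨b1', b2', b3', q', b4', b5', b6'⟩ := mem_DD a0'
      have hm : D = seg D (sD D) * sD D * upp D (sD D + 1) := by
        rw [mul_assoc, ← upp_succ (by omega) a1 a2, seg_mul_upp (hF.fam.sqf D q b6)]
      have hm' : D' = seg D (sD D) * sD D * upp D' (sD D' + 1) := by
        rw [heq.1, heq.2, mul_assoc, ← upp_succ (by omega) a1' a2', seg_mul_upp (hF.fam.sqf D' q' b6')]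
      have hs : (0 : ℝ) < sD D := by exact_mod_cast a1.pos
      have hs' : (0 : ℝ) < sD D' := by exact_mod_cast a1'.pos
      refine core hF hP hz4 a0 a0' hm hm' ?_ ?_
      · rw [upp_succ (by omega) a1 a2, Nat.cast_mul] at a7
        nlinarith
      · rw [upp_succ (by omega) a1' a2', Nat.cast_mul] at a7'
        nlinarith
  have h3 : ((Cls St y P z P' Y).card : ℝ) ≤ (((DD St (2 * y / Y) P').card : ℝ) +
      (DD St (y / Y) P').card) *
      (((Finset.Icc 1 ⌊P'⌋₊).filter (fun p : ℕ => p.Prime ∧ P' / 2 < (p : ℝ))).card : ℝ) := by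
    have h4 := hcard
    rw [card_product] at h4
    have h5 := h4.trans (Nat.mul_le_mul_right _ (card_union_le _ _))
    exact_mod_cast h5
  refine h3.trans ?_
  exact mul_le_mul_of_nonneg_left (hC P' hP') (by positivity)

theorem far_card {k : ℕ} {R R0 W : ℝ} {St : ℕ → ℕ → Prop} (hF : Fam2 k R R0 W St)
    {y P z P' Y P'' : ℝ} (hy : 0 < y) (hP : 2 * W ≤ P) (hP' : 0 < P') (hY : 0 < Y) (hz : 0 < z)
    (hz4 : 4 * (16 * R / P) * z ^ 2 < 1) :
    ((Far St y P z P' Y P'').card : ℝ) ≤ ((DD St (2 * y * P' / Y) P'').card : ℝ) +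
      (DD St (y * P' / Y) P'').card + (DD St (y * P' / (2 * Y)) P'').card := by
  classical
  have h1 : ∀ D ∈ Far St y P z P' Y P'', D ∈ DD St y P ∧
    ∃ s t : ℕ, s.Prime ∧ t.Prime ∧ s ∣ D ∧ t ∣ D ∧ s < t ∧
    (∀ p : ℕ, p.Prime → p ∣ D → s < p → t ≤ p) ∧
    P' / 2 < (s : ℝ) ∧ (s : ℝ) ≤ P' ∧ P'' / 2 < (t : ℝ) ∧ (t : ℝ) ≤ P'' ∧
    Y / 2 < (upp D s : ℝ) ∧ (upp D s : ℝ) ≤ Y ∧ (upp D s : ℝ) ≤ z * s := by
    intro D hD
    unfold Far at hD
    rw [mem_filter] at hD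
    exact hD
  have h2 : ∀ D ∈ Far St y P z P' Y P'', ∃ t : ℕ, seg D t * upp D t = D ∧ 
      (upp D t : ℝ) ≤ z ∧
      seg D t ∈ (DD St (2 * y * P' / Y) P'' ∪ DD St (y * P' / Y) P'') ∪
        DD St (y * P' / (2 * Y)) P'' := by
    intro D hD
    obtain ⟨hDD, s, t, a1, a2, a3, a4, a5, a6, a7, a8, a9, a10, a11, a12, a13⟩ := h1 D hD
    obtain ⟨b1, b2, b3, q, b4, b5, b6⟩ := mem_DD hDD
    have hus : upp D s = s * upp D t := by
      rw [upp_succ (by omega) a1 a3, upp_next a5 a6]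
    have hmul := seg_mul_upp (s := t) (hF.fam.sqf D q b6)
    have hst := hF.fam.sub D q t b6 a2 a4
    have hs : (0 : ℝ) < s := by exact_mod_cast a1.pos
    have hmulR : (seg D t : ℝ) * upp D t = D := by exact_mod_cast hmul
    have husR : (upp D s : ℝ) = s * upp D t := by exact_mod_cast hus
    have hu : (0 : ℝ) < upp D t := by exact_mod_cast (upp_pos : 1 ≤ upp D t)
    have hs0 : (0 : ℝ) < seg D t := by exact_mod_cast (seg_pos : 1 ≤ seg D t)
    refine ⟨t, hmul, ?_, ?_⟩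
    · rw [husR] at a13
      nlinarith
    · -- `N * upp D s = D * s`
      have hN : (seg D t : ℝ) * upp D s = D * s := by rw [husR, ← hmulR]; ring
      have hus0 : (0 : ℝ) < upp D s := by rw [husR]; positivity
      rw [mem_union, mem_union]
      have hup : (seg D t : ℝ) ≤ 2 * y * P' / Y := by
        rw [le_div_iff₀ hY]
        have e1 : (D : ℝ) * s ≤ y * P' := mul_le_mul b2 a8 hs.le hy.le
        nlinarith
      have hlo : y * P' / (2 * Y) / 2 < (seg D t : ℝ) := by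
        rw [div_div, div_lt_iff₀ (by positivity)]
        have e1 : (y / 2) * (P' / 2) < (D : ℝ) * s := by
          apply mul_lt_mul'' b3 a7 (by positivity) (by positivity)
        nlinarith
      rcases le_or_gt (seg D t : ℝ) (y * P' / Y) with h | h
      · rcases le_or_gt (seg D t : ℝ) (y * P' / (2 * Y)) with h' | h'
        · right
          exact DD_of seg_pos h' hlo a9 a10 hst
        · left; right
          refine DD_of seg_pos h ?_ a9 a10 hst
          rw [show y * P' / Y / 2 = y * P' / (2 * Y) by rw [div_div, mul_comm Y 2]]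
          exact h'
      · left; left
        refine DD_of seg_pos hup ?_ a9 a10 hst
        rw [show 2 * y * P' / Y / 2 = y * P' / Y by ring]
        exact h
  choose! tD htD using h2
  have hcard : (Far St y P z P' Y P'').card ≤
      ((DD St (2 * y * P' / Y) P'' ∪ DD St (y * P' / Y) P'') ∪
        DD St (y * P' / (2 * Y)) P'').card := by
    refine Finset.card_le_card_of_injOn (fun D => seg D (tD D)) ?_ ?_
    · intro D hD
      rw [mem_coe] at hD
      exact (htD D hD).2.2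
    · intro D hD D' hD' heq
      rw [mem_coe] at hD hD'
      simp only at heq
      obtain ⟨a1, a2, -⟩ := htD D hD
      obtain ⟨a1', a2', -⟩ := htD D' hD'
      refine core hF hP hz4 (h1 D hD).1 (h1 D' hD').1 a1.symm ?_ a2 a2'
      rw [heq]; exact a1'.symm
  have h3 := hcard.trans ((card_union_le _ _).trans (Nat.add_le_add_right (card_union_le _ _) _))
  exact_mod_cast h3

theorem sml_card : ∃ C : ℝ, 1 ≤ C ∧ ∀ (k : ℕ) (R R0 W : ℝ) (St : ℕ → ℕ → Prop), Fam2 k R R0 W St →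
    ∀ y P z w : ℝ, 0 < y → 2 * W ≤ P → 1 ≤ z → 4 * (16 * R / P) * z ^ 2 < 1 → 3000 ≤ w →
    2 * z ≤ y →
    ((Sml St y P z w).card : ℝ) ≤
      C * (y * w / z) * Real.log w * Real.exp (-(Real.log (y / (2 * z)) / Real.log w)) := by
  classical
  obtain ⟨C, hC1, hC⟩ := Pool.Agent.Helper923.PPS.rankin_count
    Pool.Agent.Helper923.HMertens.mertens_log Pool.Agent.Helper923.HMertens.mertens_ratio
  refine ⟨C, hC1, ?_⟩
  intro k R R0 W St hF y P z w hy hP hz hz4 hw hzy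
  have hzpos : 0 < z := by linarith
  have hwpos : 0 < w := by linarith
  have h1 : ∀ D ∈ Sml St y P z w, D ∈ DD St y P ∧ ∃ s : ℕ, s.Prime ∧ s ∣ D ∧ (s : ℝ) ≤ w ∧
    z < (upp D s : ℝ) ∧ (upp D s : ℝ) ≤ z * s := by
    intro D hD
    unfold Sml at hD
    rw [mem_filter] at hD
    exact hD
  have h2 : ∀ D ∈ Sml St y P z w, ∃ s : ℕ, s.Prime ∧ s ∣ D ∧ (s : ℝ) ≤ w ∧
    z < (upp D s : ℝ) ∧ (upp D s : ℝ) ≤ z * s := fun D hD => (h1 D hD).2
  choose! sD hsD using h2
  set v : ℝ := Real.log (y / (2 * z)) with hv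
  have hyz : 1 ≤ y / (2 * z) := by rw [le_div_iff₀ (by positivity)]; linarith
  have hv0 : 0 ≤ v := Real.log_nonneg hyz
  have hexpv : Real.exp v = y / (2 * z) := Real.exp_log (by positivity)
  have hzz : 3000 ≤ ⌊w⌋₊ := Nat.le_floor (by exact_mod_cast hw)
  have hcard : (Sml St y P z w).card ≤
      ((Finset.Icc 1 ⌊y * w / z⌋₊).filter
        (fun n => Real.exp v < (Pool.Agent.Helper923.PPS.sp ⌊w⌋₊ n : ℝ))).card := by
    refine Finset.card_le_card_of_injOn (fun D => seg D (sD D) * sD D) ?_ ?_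
    · intro D hD
      rw [mem_coe] at hD
      obtain ⟨a0, -⟩ := h1 D hD
      obtain ⟨a1, a2, a3, a4, a5⟩ := hsD D hD
      obtain ⟨b1, b2, b3, q, b4, b5, b6⟩ := mem_DD a0
      have hsq := hF.fam.sqf D q b6
      have hm : seg D (sD D) * sD D * upp D (sD D + 1) = D := by
        rw [mul_assoc, ← upp_succ (by omega) a1 a2, seg_mul_upp hsq]
      have hm2 : seg D (sD D) * upp D (sD D) = D := seg_mul_upp hsq
      have hs : (0 : ℝ) < sD D := by exact_mod_cast a1.pos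
      have hseg0 : (0 : ℝ) < seg D (sD D) := by exact_mod_cast (seg_pos : 1 ≤ seg D (sD D))
      have hQ' : (upp D (sD D + 1) : ℝ) ≤ z := by
        have h := a5
        rw [upp_succ (by omega) a1 a2, Nat.cast_mul] at h
        nlinarith
      have hmR : (seg D (sD D) : ℝ) * sD D * upp D (sD D + 1) = D := by exact_mod_cast hm
      have hm2R : (seg D (sD D) : ℝ) * upp D (sD D) = D := by exact_mod_cast hm2
      have hN2 : 1 ≤ seg D (sD D) * sD D := Nat.mul_pos seg_pos a1.pos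
      have hN2s : ∀ p, p.Prime → p ∣ seg D (sD D) * sD D → p ≤ ⌊w⌋₊ := by
        intro p hp hpd
        apply Nat.le_floor
        refine le_trans ?_ a3
        rcases (hp.dvd_mul).mp hpd with h | h
        · unfold seg at h
          obtain ⟨p', hp', hpp'⟩ := (Prime.dvd_finsetProd_iff hp.prime _).1 h
          rw [Finset.mem_filter] at hp'
          rw [Nat.prime_dvd_prime_iff_eq hp (Nat.prime_of_mem_primeFactors hp'.1)] at hpp'
          rw [hpp']
          exact_mod_cast hp'.2.le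
        · rw [Nat.prime_dvd_prime_iff_eq hp a1] at h
          rw [h]
      have hsp : Pool.Agent.Helper923.PPS.sp ⌊w⌋₊ (seg D (sD D) * sD D) =
          seg D (sD D) * sD D := by
        unfold Pool.Agent.Helper923.PPS.sp
        rw [Finset.filter_true_of_mem]
        · exact Nat.prod_factorization_pow_eq_self (by omega)
        · intro p hp
          exact hN2s p (Nat.prime_of_mem_primeFactors hp) (Nat.dvd_of_mem_primeFactors hp)
      rw [mem_coe, mem_filter, mem_Icc]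
      simp only
      refine ⟨⟨hN2, ?_⟩, ?_⟩
      · apply Nat.le_floor
        rw [le_div_iff₀ hzpos, Nat.cast_mul]
        have e1 : (seg D (sD D) : ℝ) * z ≤ y := by nlinarith
        calc (seg D (sD D) : ℝ) * (sD D) * z = (seg D (sD D) : ℝ) * z * sD D := by ring
          _ ≤ y * w := mul_le_mul e1 a3 hs.le hy.le
      · rw [hsp, hexpv, div_lt_iff₀ (by positivity), Nat.cast_mul]
        have e1 : (D : ℝ) ≤ (seg D (sD D) : ℝ) * sD D * z := by
          rw [← hmR]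
          exact mul_le_mul_of_nonneg_left hQ' (by positivity)
        nlinarith
    · intro D hD D' hD' heq
      rw [mem_coe] at hD hD'
      simp only at heq
      obtain ⟨a0, -⟩ := h1 D hD
      obtain ⟨a1, a2, a3, a4, a5⟩ := hsD D hD
      obtain ⟨a0', -⟩ := h1 D' hD'
      obtain ⟨a1', a2', a3', a4', a5'⟩ := hsD D' hD'
      obtain ⟨b1, b2, b3, q, b4, b5, b6⟩ := mem_DD a0
      obtain ⟨b1', b2', b3', q', b4', b5', b6'⟩ := mem_DD a0'
      have hm : D = seg D (sD D) * sD D * upp D (sD D + 1) := by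
        rw [mul_assoc, ← upp_succ (by omega) a1 a2, seg_mul_upp (hF.fam.sqf D q b6)]
      have hm' : D' = seg D (sD D) * sD D * upp D' (sD D' + 1) := by
        rw [heq, mul_assoc, ← upp_succ (by omega) a1' a2', seg_mul_upp (hF.fam.sqf D' q' b6')]
      have hs : (0 : ℝ) < sD D := by exact_mod_cast a1.pos
      have hs' : (0 : ℝ) < sD D' := by exact_mod_cast a1'.pos
      refine core hF hP hz4 a0 a0' hm hm' ?_ ?_
      · rw [upp_succ (by omega) a1 a2, Nat.cast_mul] at a5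
        nlinarith
      · rw [upp_succ (by omega) a1' a2', Nat.cast_mul] at a5'
        nlinarith
  have h3 := hC ⌊w⌋₊ ⌊y * w / z⌋₊ v hzz hv0
  have h4 : ((Sml St y P z w).card : ℝ) ≤ C * (⌊y * w / z⌋₊ : ℝ) * Real.log (⌊w⌋₊ : ℝ) *
      Real.exp (-v / Real.log (⌊w⌋₊ : ℝ)) := le_trans (by exact_mod_cast hcard) h3
  refine h4.trans ?_
  have hfl : (3000 : ℝ) ≤ (⌊w⌋₊ : ℝ) := by exact_mod_cast hzz
  have hlog0 : 0 < Real.log (⌊w⌋₊ : ℝ) := Real.log_pos (by linarith)
  have hlog1 : Real.log (⌊w⌋₊ : ℝ) ≤ Real.log w :=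
    Real.log_le_log (by linarith) (Nat.floor_le hwpos.le)
  have hT : (⌊y * w / z⌋₊ : ℝ) ≤ y * w / z := Nat.floor_le (by positivity)
  have hexp : Real.exp (-v / Real.log (⌊w⌋₊ : ℝ)) ≤ Real.exp (-(v / Real.log w)) := by
    apply Real.exp_le_exp.mpr
    rw [neg_div, neg_le_neg_iff]
    exact div_le_div_of_nonneg_left hv0 hlog0 hlog1
  have hC0 : 0 ≤ C := by linarith
  have hyw : 0 ≤ y * w / z := by positivity
  apply mul_le_mul _ hexp (Real.exp_pos _).le
    (mul_nonneg (mul_nonneg hC0 hyw) (hlog0.le.trans hlog1))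
  apply mul_le_mul _ hlog1 hlog0.le (mul_nonneg hC0 hyw)
  exact mul_le_mul_of_nonneg_left hT hC0


end Pool.Agent.H96.LS
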