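import Pool.Agent.H96.LS.FamI
import Pool.Graph.R_seed8.H95R2.Leh.DenseB
import Pool.Graph.R_seed8.H95R2.Leh.ClsB

set_option autoImplicit false

/-!
# Counting Lehmer numbers of a short interval by the states of the crossing
-/

namespace Pool.Agent.H96.LS

open Finset Pool.Agent.H95R2.Leh

theorem card_congr_Ioc (M x y : ℕ) (hM : 0 < M) (S : Finset ℕ)
    (hS : ∀ n ∈ S, x < n ∧ n ≤ x + y)
    (hc : ∀ n ∈ S, ∀ n' ∈ S, n ≡ n' [MOD M]) : S.card ≤ y / M + 1 := by
  have hinj : Set.InjOn (fun n => n - x) (S : Set ℕ) := by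
    intro n hn n' hn' h
    have h1 := hS n hn
    have h2 := hS n' hn'
    have h3 : n - x = n' - x := h
    omega
  rw [← Finset.card_image_of_injOn hinj]
  apply Omega.card_congr_le M y hM
  · intro m hm
    rw [Finset.mem_image] at hm
    obtain ⟨n, hn, rfl⟩ := hm
    have := hS n hn
    omega
  · intro m hm m' hm'
    rw [Finset.mem_image] at hm hm'
    obtain ⟨n, hn, rfl⟩ := hm
    obtain ⟨n', hn', rfl⟩ := hm'
    have h1 := hS n hn
    have h2 := hS n' hn'
    have h3 := hc n hn n' hn'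
    apply Nat.ModEq.add_right_cancel' x
    rw [Nat.sub_add_cancel h1.1.le, Nat.sub_add_cancel h2.1.le]
    exact h3

/-- the largest prime factor of `D` splits off -/
theorem seg_max {D : ℕ} (hsq : Squarefree D) (hD : 1 < D) :
    ∃ p : ℕ, p.Prime ∧ p ∣ D ∧ seg D p * p = D := by
  have hne : D.primeFactors.Nonempty := Nat.nonempty_primeFactors.mpr hD
  set p := D.primeFactors.max' hne with hp
  have hpm : p ∈ D.primeFactors := Finset.max'_mem _ _
  have hup : upp D p = p := by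
    unfold upp
    have : D.primeFactors.filter (fun x => p ≤ x) = {p} := by
      ext x
      simp only [Finset.mem_filter, Finset.mem_singleton]
      constructor
      · rintro ⟨h1, h2⟩
        exact le_antisymm (Finset.le_max' _ _ h1) h2
      · rintro rfl
        exact ⟨hpm, le_refl _⟩
    rw [this, Finset.prod_singleton]
  refine ⟨p, Nat.prime_of_mem_primeFactors hpm, Nat.dvd_of_mem_primeFactors hpm, ?_⟩
  have := seg_mul_upp' (s := p) hsq
  rwa [hup] at this

/-- the crossing of the scale `√y` -/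
theorem cross {N k n y : ℕ} {R0 : ℝ} (hF : Fam k R0 (StI N k)) (hn : Leh n) (hnN : n ≤ N)
    (hkn : n - 1 = k * Nat.totient n) (hy : y ≤ n) (hyR : 16 * R0 < y) :
    ∃ q : ℕ, q.Prime ∧ q ∣ n ∧ y ≤ seg n q ^ 2 * q ∧ seg n q ^ 2 < y * q := by
  obtain ⟨hsq, -, -⟩ := leh_basic hn
  have hn1 := hn.1
  obtain ⟨p0, hp0, hp0n, hp0s⟩ := seg_max hsq hn1
  have hseg1 : ∀ q, 1 ≤ seg n q := fun q => Nat.pos_of_dvd_of_pos (seg_dvd n q) (by omega)
  set T := n.primeFactors.filter (fun q => y ≤ seg n q ^ 2 * q) with hT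
  have hne : T.Nonempty := by
    refine ⟨p0, ?_⟩
    rw [hT, Finset.mem_filter]
    refine ⟨Nat.mem_primeFactors.2 ⟨hp0, hp0n, by omega⟩, ?_⟩
    have h1 := hseg1 p0
    calc y ≤ n := hy
      _ = seg n p0 * p0 := hp0s.symm
      _ ≤ seg n p0 ^ 2 * p0 := by
          apply Nat.mul_le_mul_right
          nlinarith
  set q := T.min' hne with hq
  have hqT : q ∈ T := Finset.min'_mem T hne
  have hqT' := hqT
  rw [hT, Finset.mem_filter] at hqT'
  obtain ⟨hqm, hq2⟩ := hqT'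
  have hqp := Nat.prime_of_mem_primeFactors hqm
  have hqn := Nat.dvd_of_mem_primeFactors hqm
  refine ⟨q, hqp, hqn, hq2, ?_⟩
  have hst : StI N k (seg n q) q := ⟨n, hn, hnN, hkn, hqp, hqn, rfl⟩
  have hD1 : 1 < seg n q := by
    rcases (hseg1 q).eq_or_lt with h | h
    · exfalso
      have hk := DenseA.key hF hst
      rw [← h] at hk hq2
      have h2 : (y : ℝ) ≤ q := by
        have : y ≤ q := by simpa using hq2
        exact_mod_cast this
      push_cast at hk
      linarith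
    · exact h
  have hsqD : Squarefree (seg n q) := hsq.squarefree_of_dvd (seg_dvd n q)
  obtain ⟨p, hpp, hpD, hps⟩ := seg_max hsqD hD1
  have hpq : p < q := hF.lt _ _ _ hst hpp hpD
  rw [seg_seg n q p hpq.le] at hps
  have hpn : p ∣ n := hpD.trans (seg_dvd n q)
  have hpT : p ∉ T := by
    intro h
    have := Finset.min'_le T p h
    omega
  have hlt : seg n p ^ 2 * p < y := by
    by_contra hcon
    push Not at hcon
    apply hpT
    rw [hT, Finset.mem_filter]
    exact ⟨Nat.mem_primeFactors.2 ⟨hpp, hpn, by omega⟩, hcon⟩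
  calc seg n q ^ 2 = (seg n p ^ 2 * p) * p := by rw [← hps]; ring
    _ < y * p := Nat.mul_lt_mul_of_pos_right hlt hpp.pos
    _ ≤ y * q := Nat.mul_le_mul_left _ hpq.le

open Classical in
/-- the Lehmer numbers of the interval with quotient `k` in a dyadic class -/
noncomputable def Sc (x y k : ℕ) (T Q : ℝ) : Finset ℕ :=
  (Finset.Ioc x (x + y)).filter (fun n => Leh n ∧ n - 1 = k * Nat.totient n ∧
    ∃ q : ℕ, q.Prime ∧ q ∣ n ∧ y ≤ seg n q ^ 2 * q ∧ seg n q ^ 2 < y * q ∧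
      T / 2 < (seg n q : ℝ) ∧ (seg n q : ℝ) ≤ T ∧ Q / 2 < (q : ℝ) ∧ (q : ℝ) ≤ Q)

theorem dvd_ratio {n k D : ℕ} (hn : Leh n) (hkn : n - 1 = k * Nat.totient n) (hD : D ∣ n) :
    D ≤ (k + 1) * Nat.totient D := by
  obtain ⟨hsq, -, -⟩ := leh_basic hn
  have hn1 := hn.1
  obtain ⟨M, rfl⟩ := hD
  have hcop : Nat.Coprime D M := Nat.coprime_of_squarefree_mul hsq
  have hphi := Nat.totient_mul hcop
  have hM0 : 0 < M := Nat.pos_of_ne_zero (by rintro rfl; simp at hn1)
  have hphM : 0 < Nat.totient M := Nat.totient_pos.2 hM0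
  have hphpos : 0 < Nat.totient (D * M) := Nat.totient_pos.2 (by omega)
  have h1 : D * M ≤ (k + 1) * Nat.totient (D * M) := by
    have : D * M = k * Nat.totient (D * M) + 1 := by omega
    rw [add_mul]
    omega
  have h2 : Nat.totient M ≤ M := Nat.totient_le M
  have h3 : D * M ≤ ((k + 1) * Nat.totient D) * M := by
    calc D * M ≤ (k + 1) * Nat.totient (D * M) := h1
      _ = ((k + 1) * Nat.totient D) * Nat.totient M := by rw [hphi]; ring
      _ ≤ _ := Nat.mul_le_mul_left _ h2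
  exact Nat.le_of_mul_le_mul_right h3 hM0

open Classical in
theorem cls_count {x y k : ℕ} {T Q : ℝ} (hT : 0 < T) :
    ((Sc x y k T Q).card : ℝ) ≤
      ((DD (StI (x + y) k) T Q).card : ℝ) * (1 + 4 * (k + 1) * y / T ^ 2) := by
  have hsub : Sc x y k T Q ⊆ (DD (StI (x + y) k) T Q).biUnion
      (fun D => (Sc x y k T Q).filter (fun n => D ∣ n)) := by
    intro n hn
    have hn0 := hn
    unfold Sc at hn
    rw [Finset.mem_filter, Finset.mem_Ioc] at hn
    obtain ⟨⟨h1, h2⟩, hl, hkn, q, hqp, hqn, h3, h4, h5, h6, h7, h8⟩ := hn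
    rw [Finset.mem_biUnion]
    refine ⟨seg n q, ?_, ?_⟩
    · apply CB.DD_of _ h6 h5 h7 h8
      · exact ⟨n, hl, h2, hkn, hqp, hqn, rfl⟩
      · exact Nat.pos_of_dvd_of_pos (seg_dvd n q) (by omega)
    · rw [Finset.mem_filter]
      exact ⟨hn0, seg_dvd n q⟩
  have hfib : ∀ D ∈ DD (StI (x + y) k) T Q,
      (((Sc x y k T Q).filter (fun n => D ∣ n)).card : ℝ) ≤ 1 + 4 * (k + 1) * y / T ^ 2 := by
    intro D hD
    obtain ⟨d1, d2, d3, -⟩ := CB.mem_DD hD
    set F := (Sc x y k T Q).filter (fun n => D ∣ n) with hFdef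
    rcases F.eq_empty_or_nonempty with he | ⟨n0, hn0⟩
    · rw [he, Finset.card_empty, Nat.cast_zero]
      positivity
    have hmem : ∀ n ∈ F, x < n ∧ n ≤ x + y ∧ Leh n ∧ n - 1 = k * Nat.totient n ∧ D ∣ n := by
      intro n hn
      rw [hFdef, Finset.mem_filter] at hn
      obtain ⟨hn, hDn⟩ := hn
      unfold Sc at hn
      rw [Finset.mem_filter, Finset.mem_Ioc] at hn
      exact ⟨hn.1.1, hn.1.2, hn.2.1, hn.2.2.1, hDn⟩
    obtain ⟨-, -, hl0, hkn0, hDn0⟩ := hmem n0 hn0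
    have hrat := dvd_ratio hl0 hkn0 hDn0
    obtain ⟨-, -, hco0⟩ := leh_basic hl0
    have hco : Nat.Coprime D (Nat.totient D) :=
      (hco0.coprime_dvd_left hDn0).coprime_dvd_right (Nat.totient_dvd_of_dvd hDn0)
    have hphi : 0 < Nat.totient D := Nat.totient_pos.2 (by omega)
    have hM : 0 < D * Nat.totient D := Nat.mul_pos (by omega) hphi
    have hmod : ∀ n ∈ F, n ≡ 0 [MOD D] ∧ n ≡ 1 [MOD Nat.totient D] := by
      intro n hn
      obtain ⟨-, -, hl, hkn, hDn⟩ := hmem n hn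
      refine ⟨(Nat.modEq_zero_iff_dvd).mpr hDn, ?_⟩
      have h1 : Nat.totient D ∣ n - 1 := by
        rw [hkn]
        exact (Nat.totient_dvd_of_dvd hDn).mul_left k
      exact ((Nat.modEq_iff_dvd' hl.1.le).mpr h1).symm
    have hc := card_congr_Ioc (D * Nat.totient D) x y hM F
      (fun n hn => ⟨(hmem n hn).1, (hmem n hn).2.1⟩)
      (fun n hn n' hn' => (Nat.modEq_and_modEq_iff_modEq_mul hco).mp
        ⟨(hmod n hn).1.trans (hmod n' hn').1.symm, (hmod n hn).2.trans (hmod n' hn').2.symm⟩)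
    have h2 : ((y / (D * Nat.totient D) : ℕ) : ℝ) ≤ (y : ℝ) / ((D * Nat.totient D : ℕ) : ℝ) :=
      Nat.cast_div_le
    have h3 : (F.card : ℝ) ≤ ((y / (D * Nat.totient D) : ℕ) : ℝ) + 1 := by exact_mod_cast hc
    have h4 : (y : ℝ) / ((D * Nat.totient D : ℕ) : ℝ) ≤ 4 * (k + 1) * y / T ^ 2 := by
      have hMR : (0 : ℝ) < ((D * Nat.totient D : ℕ) : ℝ) := by exact_mod_cast hM
      rw [div_le_div_iff₀ hMR (by positivity)]
      have h5 : (D : ℝ) ≤ (k + 1) * Nat.totient D := by exact_mod_cast hrat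
      have hD0 : (0 : ℝ) < D := by exact_mod_cast (by omega : 0 < D)
      have h6 : T ^ 2 ≤ 4 * ((k + 1) * (D * Nat.totient D)) := by
        have h7 : T ^ 2 ≤ (2 * D) ^ 2 := pow_le_pow_left₀ hT.le (by linarith) 2
        have h8 : (D : ℝ) * D ≤ D * ((k + 1) * Nat.totient D) :=
          mul_le_mul_of_nonneg_left h5 hD0.le
        nlinarith
      push_cast
      calc (y : ℝ) * T ^ 2 ≤ y * (4 * ((k + 1) * (D * Nat.totient D))) :=
            mul_le_mul_of_nonneg_left h6 (Nat.cast_nonneg _)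
        _ = _ := by ring
    linarith
  have h1 : ((Sc x y k T Q).card : ℝ) ≤
      ∑ D ∈ DD (StI (x + y) k) T Q, (((Sc x y k T Q).filter (fun n => D ∣ n)).card : ℝ) := by
    exact_mod_cast (Finset.card_le_card hsub).trans Finset.card_biUnion_le
  refine h1.trans ?_
  calc ∑ D ∈ DD (StI (x + y) k) T Q, (((Sc x y k T Q).filter (fun n => D ∣ n)).card : ℝ) ≤
      ∑ _D ∈ DD (StI (x + y) k) T Q, (1 + 4 * ((k : ℝ) + 1) * y / T ^ 2) :=
        Finset.sum_le_sum hfib
    _ = _ := by rw [Finset.sum_const, nsmul_eq_mul]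

/-- the bound of a class from a bound for `Fn` -/
theorem cls_bound {x y k : ℕ} {T Q F : ℝ} (hT : 0 < T) (hQ : 0 < Q) (h1 : (y : ℝ) ≤ T ^ 2 * Q)
    (h2 : T ^ 2 ≤ 4 * y * Q) (hF : Fn (StI (x + y) k) T Q ≤ F) :
    ((Sc x y k T Q).card : ℝ) ≤ F * Real.sqrt y * (4 * k + 6) := by
  have hsQ : 0 < Real.sqrt Q := Real.sqrt_pos.mpr hQ
  have hF0 : 0 ≤ F := by
    refine le_trans ?_ hF
    unfold Fn
    positivity
  have e1 : ((DD (StI (x + y) k) T Q).card : ℝ) ≤ F * T / Real.sqrt Q := by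
    unfold Fn at hF
    rw [div_le_iff₀ hT] at hF
    rw [le_div_iff₀ hsQ]
    exact hF
  have e2 : T / Real.sqrt Q ≤ 2 * Real.sqrt y := by
    rw [div_le_iff₀ hsQ]
    have h3 : T ≤ Real.sqrt (4 * y * Q) := Real.le_sqrt_of_sq_le h2
    have h4 : Real.sqrt (4 * y * Q) = 2 * Real.sqrt y * Real.sqrt Q := by
      rw [Real.sqrt_mul (by positivity), Real.sqrt_mul (by norm_num)]
      have : Real.sqrt 4 = 2 := by
        rw [show (4 : ℝ) = 2 ^ 2 by norm_num]
        exact Real.sqrt_sq (by norm_num)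
      rw [this]
    rwa [h4] at h3
  have e3 : (y : ℝ) / (T * Real.sqrt Q) ≤ Real.sqrt y := by
    rw [div_le_iff₀ (by positivity)]
    have h3 : Real.sqrt y ≤ T * Real.sqrt Q := by
      have h4 : Real.sqrt y ≤ Real.sqrt (T ^ 2 * Q) := Real.sqrt_le_sqrt h1
      rwa [Real.sqrt_mul (by positivity), Real.sqrt_sq hT.le] at h4
    calc (y : ℝ) = Real.sqrt y * Real.sqrt y := (Real.mul_self_sqrt (Nat.cast_nonneg _)).symm
      _ ≤ Real.sqrt y * (T * Real.sqrt Q) := mul_le_mul_of_nonneg_left h3 (Real.sqrt_nonneg _)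
  refine (cls_count hT).trans ?_
  calc ((DD (StI (x + y) k) T Q).card : ℝ) * (1 + 4 * (k + 1) * y / T ^ 2) ≤
      (F * T / Real.sqrt Q) * (1 + 4 * (k + 1) * y / T ^ 2) :=
        mul_le_mul_of_nonneg_right e1 (by positivity)
    _ = F * (T / Real.sqrt Q) + F * (4 * (k + 1)) * (y / (T * Real.sqrt Q)) := by
        field_simp
    _ ≤ F * (2 * Real.sqrt y) + F * (4 * (k + 1)) * Real.sqrt y := by
        apply add_le_add
        · exact mul_le_mul_of_nonneg_left e2 hF0
        · exact mul_le_mul_of_nonneg_left e3 (by positivity)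
    _ = _ := by ring

end Pool.Agent.H96.LS
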