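import Pool.Graph.R_seed8.H95R2.Leh.Seg

set_option autoImplicit false

/-!
# Families of states with a sharper closeness above a threshold

`Fam2 k R R0 W St` is the library's `Fam k R0 St` together with the closeness
`|k φ(D) - D| q ≤ 8 R D` for the states with `q ≥ W`.
-/

namespace Pool.Agent.H96.LS

open Finset Pool.Agent.H95R2.Leh

structure Fam2 (k : ℕ) (R R0 W : ℝ) (St : ℕ → ℕ → Prop) : Prop where
  fam : Fam k R0 St
  one : 1 ≤ R
  le : R ≤ R0
  large : 128 * R0 ≤ W
  close : ∀ D q, St D q → W ≤ q → |(k : ℝ) * Nat.totient D - D| * q ≤ 8 * R * D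

theorem near_of_state2 {k : ℕ} {R R0 W : ℝ} {St : ℕ → ℕ → Prop} (hF : Fam2 k R R0 W St)
    {D q N Q : ℕ} {P : ℝ} (hD : St D q) (hq : P / 2 < q) (hP : 2 * W ≤ P) (hDNQ : D = N * Q) :
    Near k N (16 * R / P) Q := by
  have hsq := hF.fam.sqf D q hD
  have hcop := hF.fam.cop D q hD
  have hR := hF.one
  have hRR := hF.le
  have hW := hF.large
  have hP0 : 0 < P := by linarith
  have hs := hF.close D q hD (by linarith)
  subst hDNQ
  have hNQ : Nat.Coprime N Q := Nat.coprime_of_squarefree_mul hsq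
  rw [Nat.totient_mul hNQ] at hs hcop
  constructor
  · have h1 : Q ∣ N * Q := Dvd.intro_left _ rfl
    have h2 : Nat.totient Q ∣ Nat.totient N * Nat.totient Q := Dvd.intro_left _ rfl
    exact (hcop.coprime_dvd_left h1).coprime_dvd_right h2
  · have h1 : |(k : ℝ) * Nat.totient N * Nat.totient Q - N * Q| * (P / 2) ≤ 8 * R * (N * Q) := by
      push_cast at hs
      rw [← mul_assoc] at hs
      refine le_trans ?_ hs
      exact mul_le_mul_of_nonneg_left hq.le (abs_nonneg _)
    have h2 : 16 * R / P * ((N : ℝ) * Q) = (8 * R * (N * Q)) / (P / 2) := by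
      field_simp
      ring
    rw [h2, le_div_iff₀ (by positivity)]
    exact h1

end Pool.Agent.H96.LS
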