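import Pool.Agent.H96.LS.Fam2
import Pool.Graph.R_seed8.H95R2.Leh.FamLeh
import Pool.Graph.R_seed8.H95R2.Leh.Omega

set_option autoImplicit false

/-!
# The states of the Lehmer numbers below `N`
-/

namespace Pool.Agent.H96.LS

open Finset Pool.Agent.H95R2.Leh

/-- the states of the Lehmer numbers up to `N` with quotient `k` -/
def StI (N k : ℕ) (D q : ℕ) : Prop :=
  ∃ n : ℕ, Leh n ∧ n ≤ N ∧ n - 1 = k * Nat.totient n ∧ q.Prime ∧ q ∣ n ∧ D = seg n q

theorem close_core {n k q : ℕ} {R : ℝ} (hn : Leh n) (hkn : n - 1 = k * Nat.totient n)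
    (hqp : q.Prime) (hqn : q ∣ n) (hR : 1 ≤ R) (hq : 16 * R ≤ q)
    (hcard : ((n.primeFactors.filter (fun p => q ≤ p)).card : ℝ) ≤ R) :
    |(k : ℝ) * Nat.totient (seg n q) - (seg n q : ℕ)| * q ≤ 8 * R * (seg n q : ℕ) := by
  obtain ⟨hsq, hodd, hco⟩ := leh_basic hn
  have hn1 := hn.1
  set D := seg n q with hD
  set M := upp n q with hM
  have hDM : D * M = n := seg_mul_upp' hsq
  have hcop : Nat.Coprime D M := seg_upp_coprime n q
  have hphi : Nat.totient n = Nat.totient D * Nat.totient M := by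
    rw [← hDM, Nat.totient_mul hcop]
  have hMpf : M.primeFactors = n.primeFactors.filter (fun p => q ≤ p) :=
    upp_primeFactors n q
  have hMr : (Nat.totient M : ℝ) = M * ∏ p ∈ M.primeFactors, (1 - ((p : ℝ))⁻¹) := by
    have := Nat.totient_eq_mul_prod_factors M
    have h2 : ((Nat.totient M : ℚ) : ℝ) =
      (((M : ℚ) * ∏ p ∈ M.primeFactors, (1 - ((p : ℚ))⁻¹) : ℚ) : ℝ) := by
      rw [this]
    push_cast at h2
    exact h2
  have hq1 : (1 : ℝ) ≤ q := by exact_mod_cast hqp.one_lt.le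
  obtain ⟨p1, p2, p3⟩ := prod_ge M.primeFactors q hq1 (by
    intro p hp
    rw [hMpf, Finset.mem_filter] at hp
    exact_mod_cast hp.2)
  have hcM : (M.primeFactors.card : ℝ) ≤ R := by
    rw [hMpf]; exact hcard
  have hD0 : 0 < D := Nat.pos_of_ne_zero (by rintro h0; rw [h0, zero_mul] at hDM; omega)
  have hM0 : 0 < M := Nat.pos_of_ne_zero (by rintro h0; rw [h0, mul_zero] at hDM; omega)
  have hphM : 0 < Nat.totient M := Nat.totient_pos.2 hM0
  have hM1 : 1 < M := by
    have : q ∈ M.primeFactors := by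
      rw [hMpf, Finset.mem_filter]
      exact ⟨Nat.mem_primeFactors.2 ⟨hqp, hqn, by omega⟩, le_refl q⟩
    have h3 := Nat.le_of_dvd hM0 (Nat.dvd_of_mem_primeFactors this)
    have := hqp.one_lt
    omega
  have hlt : Nat.totient M < M := Nat.totient_lt M hM1
  -- the key identity
  have hkey : (k : ℝ) * Nat.totient D * Nat.totient M = D * M - 1 := by
    have h4 : n - 1 = k * (Nat.totient D * Nat.totient M) := by rw [← hphi]; exact hkn
    have h5 : (n : ℝ) - 1 = k * (Nat.totient D * Nat.totient M) := by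
      have h6 : ((n - 1 : ℕ) : ℝ) = (n : ℝ) - 1 := by
        rw [Nat.cast_sub hn1.le, Nat.cast_one]
      rw [← h6, h4]
      push_cast
      ring
    have h7 : (n : ℝ) = D * M := by rw [← hDM]; push_cast; ring
    rw [h7] at h5
    linarith
  have hq0 : (0 : ℝ) < q := by linarith
  have hRq : R / q ≤ 1 / 16 := by
    rw [div_le_div_iff₀ hq0 (by norm_num)]
    linarith
  have hMR : (0 : ℝ) < M := by exact_mod_cast hM0
  have hDR : (0 : ℝ) < D := by exact_mod_cast hD0
  have hpMR : (0 : ℝ) < Nat.totient M := by exact_mod_cast hphM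
  have hlow : (M : ℝ) * (1 - R / q) ≤ Nat.totient M := by
    rw [hMr]
    apply mul_le_mul_of_nonneg_left _ hMR.le
    have : (M.primeFactors.card : ℝ) / q ≤ R / q := div_le_div_of_nonneg_right hcM hq0.le
    linarith
  -- M - φ(M) ≤ M R / q
  have hdiff : (M : ℝ) - Nat.totient M ≤ M * (R / q) := by linarith
  have hge1 : (1 : ℝ) ≤ (M : ℝ) - Nat.totient M := by
    have : Nat.totient M + 1 ≤ M := hlt
    have h8 : ((Nat.totient M + 1 : ℕ) : ℝ) ≤ M := by exact_mod_cast this
    push_cast at h8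
    linarith
  have hD1 : (1 : ℝ) ≤ D := by exact_mod_cast hD0
  have hval : ((k : ℝ) * Nat.totient D - D) * Nat.totient M
      = D * ((M : ℝ) - Nat.totient M) - 1 := by
    rw [sub_mul, hkey]; ring
  have hnn : 0 ≤ (k : ℝ) * Nat.totient D - D := by
    by_contra hneg
    push Not at hneg
    have h9 : ((k : ℝ) * Nat.totient D - D) * Nat.totient M < 0 :=
      mul_neg_of_neg_of_pos hneg hpMR
    have h10 : (1 : ℝ) ≤ D * ((M : ℝ) - Nat.totient M) := by nlinarith
    linarith
  rw [abs_of_nonneg hnn]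
  have hup : ((k : ℝ) * Nat.totient D - D) * Nat.totient M ≤ D * (M * (R / q)) := by
    rw [hval]
    have : (D : ℝ) * ((M : ℝ) - Nat.totient M) ≤ D * (M * (R / q)) :=
      mul_le_mul_of_nonneg_left hdiff hDR.le
    linarith
  have hMlow : (M : ℝ) / 2 ≤ Nat.totient M := by nlinarith
  -- (kφ(D) - D) * (M/2) ≤ D M R/q
  have h11 : ((k : ℝ) * Nat.totient D - D) * (M / 2) ≤ D * (M * (R / q)) :=
    le_trans (mul_le_mul_of_nonneg_left hMlow hnn) hup
  have h12 : ((k : ℝ) * Nat.totient D - D) ≤ 2 * D * (R / q) := by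
    have h13 : ((k : ℝ) * Nat.totient D - D) * M ≤ (2 * D * (R / q)) * M := by linarith
    exact le_of_mul_le_mul_right h13 hMR
  calc ((k : ℝ) * Nat.totient D - D) * q ≤ (2 * D * (R / q)) * q :=
        mul_le_mul_of_nonneg_right h12 hq0.le
    _ = 2 * R * D := by field_simp
    _ ≤ 8 * R * D := by nlinarith

/-- the number of prime factors of `n ≤ N` that are at least `w` -/
theorem card_ge_le {n N : ℕ} {w : ℝ} (hn : 0 < n) (hnN : n ≤ N) (hw : 1 < w) :
    ((n.primeFactors.filter (fun p : ℕ => w ≤ p)).card : ℝ) * Real.log w ≤ Real.log N := by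
  set S := n.primeFactors.filter (fun p : ℕ => w ≤ p) with hS
  have h1 : w ^ S.card ≤ ((∏ p ∈ S, p : ℕ) : ℝ) := by
    push_cast
    rw [← Finset.prod_const]
    apply Finset.prod_le_prod
    · intro i _; linarith
    · intro i hi
      rw [hS, Finset.mem_filter] at hi
      exact hi.2
  have h2 : ∏ p ∈ S, p ≤ n := by
    apply Nat.le_of_dvd hn
    exact dvd_trans (Finset.prod_dvd_prod_of_subset _ _ _ (Finset.filter_subset _ _))
      (Nat.prod_primeFactors_dvd n)
  have h3 : w ^ S.card ≤ (N : ℝ) := by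
    refine h1.trans ?_
    exact_mod_cast h2.trans hnN
  have h4 := Real.log_le_log (by positivity) h3
  rwa [Real.log_pow] at h4

theorem fam_StI {N k : ℕ} {R0 : ℝ} (hk : 1 ≤ k) (hR0 : 1 ≤ R0) (hN : Real.log N ≤ R0 * Real.log 2) :
    Fam k R0 (StI N k) := by
  have hcardR : ∀ n q : ℕ, Leh n → n ≤ N →
      ((n.primeFactors.filter (fun p => q ≤ p)).card : ℝ) ≤ R0 := by
    intro n q hn hnN
    have h1 := card_ge_le (w := 2) (by have := hn.1; omega) hnN (by norm_num)
    have h2 : (n.primeFactors.filter (fun p => q ≤ p)).card ≤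
        (n.primeFactors.filter (fun p : ℕ => (2 : ℝ) ≤ p)).card := by
      apply Finset.card_le_card
      intro p hp
      rw [Finset.mem_filter] at hp ⊢
      refine ⟨hp.1, ?_⟩
      exact_mod_cast (Nat.prime_of_mem_primeFactors hp.1).two_le
    have h3 : ((n.primeFactors.filter (fun p => q ≤ p)).card : ℝ) ≤
        ((n.primeFactors.filter (fun p : ℕ => (2 : ℝ) ≤ p)).card : ℝ) := by exact_mod_cast h2
    have hl2 : 0 < Real.log 2 := Real.log_pos (by norm_num)
    refine h3.trans ?_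
    exact le_of_mul_le_mul_right (h1.trans hN) hl2
  refine ⟨hk, hR0, ?_, ?_, ?_, ?_, ?_, ?_⟩
  · rintro D q ⟨n, hn, -, -, -, -, rfl⟩
    obtain ⟨hsq, -, -⟩ := leh_basic hn
    exact hsq.squarefree_of_dvd (seg_dvd n q)
  · rintro D q ⟨n, hn, -, -, -, -, rfl⟩
    obtain ⟨-, -, hco⟩ := leh_basic hn
    exact (hco.coprime_dvd_left (seg_dvd n q)).coprime_dvd_right
        (Nat.totient_dvd_of_dvd (seg_dvd n q))
  · rintro D q ⟨n, hn, -, hkn, -, -, rfl⟩ hD
    obtain ⟨-, hodd, hco⟩ := leh_basic hn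
    have hDn : seg n q ∣ n := seg_dvd n q
    have hcoD : Nat.Coprime (seg n q) (Nat.totient (seg n q)) :=
      (hco.coprime_dvd_left hDn).coprime_dvd_right (Nat.totient_dvd_of_dvd hDn)
    have h1 : Nat.totient (seg n q) ∣ seg n q := ⟨k, by rw [mul_comm]; exact hD.symm⟩
    have h2 : Nat.totient (seg n q) = 1 := Nat.Coprime.eq_one_of_dvd hcoD.symm h1
    have hD1 : seg n q = 1 := by
      rcases (Nat.totient_eq_one_iff).1 h2 with h3 | h3
      · exact h3
      · exfalso
        rw [h3] at hDn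
        rw [← Nat.not_even_iff_odd] at hodd
        exact hodd (even_iff_two_dvd.2 hDn)
    rw [h2, hD1, mul_one] at hD
    rw [hD, one_mul] at hkn
    exact hn.2.1 ((Nat.totient_eq_iff_prime (by have := hn.1; omega)).1 hkn.symm)
  · rintro D q ⟨n, hn, hnN, hkn, hqp, hqn, rfl⟩ hq
    exact close_core hn hkn hqp hqn hR0 hq (hcardR n q hn hnN)
  · rintro D q s ⟨n, hn, hnN, hkn, hqp, hqn, rfl⟩ hs hsD
    refine ⟨n, hn, hnN, hkn, hs, dvd_trans hsD (seg_dvd n q), ?_⟩
    have hne : seg n q ≠ 0 := by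
      intro h0
      have := seg_dvd n q
      rw [h0] at this
      have := Nat.eq_zero_of_zero_dvd this
      have := hn.1
      omega
    have : s ∈ (seg n q).primeFactors := Nat.mem_primeFactors.2 ⟨hs, hsD, hne⟩
    rw [seg_primeFactors, Finset.mem_filter] at this
    exact seg_seg n q s this.2.le
  · rintro D q p ⟨n, hn, hnN, hkn, hqp, hqn, rfl⟩ hp hpD
    have hn1 := hn.1
    have hne : seg n q ≠ 0 := by
      intro h0
      have := seg_dvd n q
      rw [h0] at this
      have := Nat.eq_zero_of_zero_dvd this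
      omega
    have : p ∈ (seg n q).primeFactors := Nat.mem_primeFactors.2 ⟨hp, hpD, hne⟩
    rw [seg_primeFactors, Finset.mem_filter] at this
    exact this.2

theorem fam2_StI {N k : ℕ} {R R0 W : ℝ} (hk : 1 ≤ k) (hR : 1 ≤ R) (hRR : R ≤ R0)
    (hW : 128 * R0 ≤ W) (hN : Real.log N ≤ R0 * Real.log 2)
    (hNW : Real.log N ≤ R * Real.log W) : Fam2 k R R0 W (StI N k) := by
  refine ⟨fam_StI hk (by linarith) hN, hR, hRR, hW, ?_⟩
  rintro D q ⟨n, hn, hnN, hkn, hqp, hqn, rfl⟩ hq
  refine close_core hn hkn hqp hqn hR (by linarith) ?_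
  have hW1 : 1 < W := by linarith
  have h1 := card_ge_le (w := W) (by have := hn.1; omega) hnN hW1
  have h2 : (n.primeFactors.filter (fun p => q ≤ p)).card ≤
      (n.primeFactors.filter (fun p : ℕ => W ≤ p)).card := by
    apply Finset.card_le_card
    intro p hp
    rw [Finset.mem_filter] at hp ⊢
    refine ⟨hp.1, ?_⟩
    have : (q : ℝ) ≤ p := by exact_mod_cast hp.2
    linarith
  have h3 : ((n.primeFactors.filter (fun p => q ≤ p)).card : ℝ) ≤
      ((n.primeFactors.filter (fun p : ℕ => W ≤ p)).card : ℝ) := by exact_mod_cast h2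
  have hl2 : 0 < Real.log W := Real.log_pos hW1
  refine h3.trans ?_
  exact le_of_mul_le_mul_right (h1.trans hNW) hl2

end Pool.Agent.H96.LS
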