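import Pool.Agent.H96.LS.Cls
import Pool.Graph.R_seed8.H95R2.Leh.StepB

set_option autoImplicit false

/-!
# Class bounds for `Fam2` in normalised form

Adapted from the library modules `H95R2.Leh.StepA` and `H95R2.Leh.StepB`.
-/

namespace Pool.Agent.H96.LS

open Finset Pool.Agent.H95R2.Leh

/-- normalised class bounds -/
theorem cls_norm : ∃ C : ℝ, 1 ≤ C ∧ ∀ (k : ℕ) (R R0 W : ℝ) (St : ℕ → ℕ → Prop), Fam2 k R R0 W St →
    ∀ y P z P' Y F : ℝ, 0 < y → 2 * W ≤ P → 0 < z → 4 * (16 * R / P) * z ^ 2 < 1 →
    6400 * R0 ≤ P' → 1 ≤ Real.log P' → 1 ≤ Y → 1 / 4 ≤ (16 * R / P) * Y ^ 2 →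
    Fn St (2 * y / Y) P' ≤ F → Fn St (y / Y) P' ≤ F →
    ((Cls St y P z P' Y).card : ℝ) * (Real.sqrt P / y) ≤
      C * R * (1 + Real.log (1 + Real.log P)) * F / Real.log P' ∧
    ((Cls St y P z P' Y).card : ℝ) * (Real.sqrt P / y) ≤
      C * R * F * Real.exp (Real.log Y - (Real.log P + Real.log P') / 2) ∧
    ((Cls St y P z P' Y).card : ℝ) * (Real.sqrt P / y) ≤
      C * R * F * Real.exp (-(Real.log Y - (Real.log P + Real.log P') / 2)) := by
  obtain ⟨Cr, hCr1, hCr⟩ := LS.cls_rough
  obtain ⟨Cp, hCp1, hCp⟩ := LS.cls_prime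
  refine ⟨1600 * Cr + 3 * Cp, by linarith, ?_⟩
  intro k R R0 W St hF y P z P' Y F hy hP hz hz4 hP' hlP' hY hM4 hF1 hF2
  have hR := hF.one
  have hRR := hF.le
  have hWW := hF.large
  have hP0 : 0 < P := by linarith
  have hP'0 : 0 < P' := by linarith
  have hY0 : 0 < Y := by linarith
  have hF0 : 0 ≤ F := by
    refine le_trans ?_ hF2
    unfold Fn
    positivity
  have hlP : 1 ≤ Real.log P := by
    have h1 : (256 : ℝ) ≤ P := by linarith
    have h2 : Real.exp 1 ≤ P := by
      have := Real.exp_one_lt_d9
      linarith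
    have := Real.log_le_log (Real.exp_pos 1) h2
    rwa [Real.log_exp] at this
  set sP := Real.sqrt P with hsP
  set sP' := Real.sqrt P' with hsP'
  have hsP0 : 0 < sP := Real.sqrt_pos.mpr hP0
  have hsP'0 : 0 < sP' := Real.sqrt_pos.mpr hP'0
  have hsPsq : sP ^ 2 = P := Real.sq_sqrt hP0.le
  have hsP'sq : sP' ^ 2 = P' := Real.sq_sqrt hP'0.le
  -- G = Y / (sP * sP')
  set G := Y / (sP * sP') with hG
  have hG0 : 0 < G := by positivity
  have hGexp : Real.exp (Real.log Y - (Real.log P + Real.log P') / 2) = G := by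
    have e1 : Real.log P = 2 * Real.log sP := by
      rw [← hsPsq, Real.log_pow]; norm_num
    have e2 : Real.log P' = 2 * Real.log sP' := by
      rw [← hsP'sq, Real.log_pow]; norm_num
    rw [e1, e2, show Real.log Y - (2 * Real.log sP + 2 * Real.log sP') / 2 =
      Real.log Y - (Real.log sP + Real.log sP') by ring, Real.exp_sub, Real.exp_add,
      Real.exp_log hY0, Real.exp_log hsP0, Real.exp_log hsP'0]
  have hGexp' : Real.exp (-(Real.log Y - (Real.log P + Real.log P') / 2)) = 1 / G := by
    rw [Real.exp_neg, hGexp, one_div]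
  rw [hGexp, hGexp']
  have hwt : sP / (Y * sP') = 1 / (G * P') := by
    rw [hG, ← hsP'sq]
    field_simp
  have hYG : Y = G * (sP * sP') := by
    rw [hG]; field_simp
  set M := (16 * R / P) * Y ^ 2 with hM
  have hMG : M = 16 * R * G ^ 2 * P' := by
    rw [hM, hYG, ← hsPsq, ← hsP'sq]
    field_simp
  have hdd := dd_norm (St := St) hy hP0 hP'0 hY0 hF1 hF2
  rw [hwt] at hdd
  set DS := ((DD St (2 * y / Y) P').card : ℝ) + (DD St (y / Y) P').card with hDS
  set NC := ((Cls St y P z P' Y).card : ℝ) with hNC
  set LL := 1 + Real.log (1 + Real.log P) with hLL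
  have hLL1 : 1 ≤ LL := by
    have : 0 ≤ Real.log (1 + Real.log P) := Real.log_nonneg (by linarith)
    linarith
  have hW0 : 0 < sP / y := by positivity
  -- (B2)
  have hB2 : NC * (sP / y) ≤ 384 * R * F * G := by
    have h1 := LS.cls_farey hF (y := y) (P := P) (z := z) (P' := P') (Y := Y) hy hP (by linarith) hY
    have h2 : NC * (sP / y) ≤ (DS * (sP / y)) * (1 + 4 * (16 * R / P) * Y ^ 2) := by
      calc NC * (sP / y) ≤ (DS * (1 + 4 * (16 * R / P) * Y ^ 2)) * (sP / y) :=
            mul_le_mul_of_nonneg_right h1 hW0.le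
        _ = _ := by ring
    have h3 : 1 + 4 * (16 * R / P) * Y ^ 2 ≤ 8 * M := by
      rw [hM]; linarith
    have h30 : 0 ≤ 1 + 4 * (16 * R / P) * Y ^ 2 := by positivity
    calc NC * (sP / y) ≤ (DS * (sP / y)) * (1 + 4 * (16 * R / P) * Y ^ 2) := h2
      _ ≤ (3 * F * (1 / (G * P'))) * (8 * M) := by
          apply mul_le_mul hdd h3 h30 (by positivity)
      _ = 384 * R * F * G := by
          rw [hMG]; field_simp; ring
  -- (B3)
  have hB3 : NC * (sP / y) ≤ 3 * Cp * F / (G * Real.log P') := by
    have h1 := hCp k R R0 W St hF y P z P' Y hy hP (by linarith) hY0 hz hz4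
    calc NC * (sP / y) ≤ (DS * (Cp * P' / Real.log P')) * (sP / y) :=
            mul_le_mul_of_nonneg_right h1 hW0.le
      _ = (DS * (sP / y)) * (Cp * P' / Real.log P') := by ring
      _ ≤ (3 * F * (1 / (G * P'))) * (Cp * P' / Real.log P') := by
          apply mul_le_mul_of_nonneg_right hdd (by positivity)
      _ = 3 * Cp * F / (G * Real.log P') := by field_simp
  have hB3' : NC * (sP / y) ≤ 3 * Cp * F / G := by
    refine le_trans hB3 ?_
    apply div_le_div_of_nonneg_left (by positivity) hG0
    exact le_mul_of_one_le_right hG0.le hlP'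
  have hlP'0 : 0 < Real.log P' := by linarith
  refine ⟨?_, ?_, ?_⟩
  · -- (B1)
    by_cases hG1 : 1 < G
    · refine le_trans hB3 ?_
      rw [div_le_div_iff₀ (by positivity) hlP'0]
      have h1 : 3 * Cp ≤ (1600 * Cr + 3 * Cp) * R * LL := by
        have h10 : 1 ≤ R * LL := one_le_mul_of_one_le_of_one_le hR hLL1
        have h11 : (1600 * Cr + 3 * Cp) * 1 ≤ (1600 * Cr + 3 * Cp) * (R * LL) :=
          mul_le_mul_of_nonneg_left h10 (by linarith)
        rw [mul_assoc]
        linarith
      have h2 : 3 * Cp * F * Real.log P' ≤ ((1600 * Cr + 3 * Cp) * R * LL) * F * Real.log P' := by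
        apply mul_le_mul_of_nonneg_right _ hlP'0.le
        exact mul_le_mul_of_nonneg_right h1 hF0
      have h3 : ((1600 * Cr + 3 * Cp) * R * LL) * F * Real.log P' ≤
          ((1600 * Cr + 3 * Cp) * R * LL) * F * Real.log P' * G := by
        apply le_mul_of_one_le_right (by positivity) hG1.le
      calc 3 * Cp * F * Real.log P' ≤ _ := h2
        _ ≤ _ := h3
        _ = _ := by ring
    · push Not at hG1
      by_cases hMs : sP' ≤ M
      · -- rough bound
        have hsP'1 : 1 ≤ sP' := by
          rw [hsP']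
          rw [show (1 : ℝ) = Real.sqrt 1 by simp]
          apply Real.sqrt_le_sqrt
          linarith
        have hM1 : 1 ≤ M := le_trans hsP'1 hMs
        have h400 : 400 * M ≤ P' ^ 2 := by
          rw [hMG]
          have : G ^ 2 ≤ 1 := pow_le_one₀ hG0.le hG1
          have h2 : 16 * R * G ^ 2 * P' ≤ 16 * R * 1 * P' := by
            apply mul_le_mul_of_nonneg_right _ hP'0.le
            apply mul_le_mul_of_nonneg_left this (by positivity)
          calc 400 * (16 * R * G ^ 2 * P') ≤ 400 * (16 * R * 1 * P') := by linarith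
            _ = (6400 * R) * P' := by ring
            _ ≤ P' * P' := mul_le_mul_of_nonneg_right (show 6400 * R ≤ P' by linarith) hP'0.le
            _ = P' ^ 2 := by ring
        have h1 := hCr k R R0 W St hF y P z P' Y hy hP (by linarith) hY hM1 h400
        rw [← hM] at h1
        have hl2 : 0 < Real.log (2 + M) := Real.log_pos (by linarith)
        have hl2' : Real.log (2 + M) ≤ 1 + M := by
          have := Real.log_le_sub_one_of_pos (show 0 < 2 + M by linarith)
          linarith
        have hlM : Real.log P' / 2 ≤ Real.log (2 + M) := by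
          have e2 : Real.log P' = 2 * Real.log sP' := by
            rw [← hsP'sq, Real.log_pow]; norm_num
          rw [e2]
          have : Real.log sP' ≤ Real.log (2 + M) := Real.log_le_log hsP'0 (by linarith)
          linarith
        have h2 : 1 + Cr * M * LL / Real.log (2 + M) ≤ 3 * Cr * M * LL / Real.log (2 + M) := by
          rw [← sub_nonneg]
          have : 3 * Cr * M * LL / Real.log (2 + M) - (1 + Cr * M * LL / Real.log (2 + M)) =
            (2 * Cr * M * LL - Real.log (2 + M)) / Real.log (2 + M) := by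
            field_simp; ring
          rw [this]
          apply div_nonneg _ hl2.le
          have h5 : M ≤ Cr * M * LL := by
            have : 1 ≤ Cr * LL := one_le_mul_of_one_le_of_one_le hCr1 hLL1
            calc M = M * 1 := by ring
              _ ≤ M * (Cr * LL) := mul_le_mul_of_nonneg_left this (by linarith)
              _ = _ := by ring
          linarith
        have h3 : 3 * Cr * M * LL / Real.log (2 + M) ≤ 6 * Cr * M * LL / Real.log P' := by
          rw [div_le_div_iff₀ hl2 hlP'0]
          have h6 : 0 ≤ 3 * Cr * M * LL := by positivity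
          have h7 := mul_le_mul_of_nonneg_left hlM h6
          linarith
        calc NC * (sP / y) ≤ (DS * (1 + Cr * M * LL / Real.log (2 + M))) * (sP / y) :=
              mul_le_mul_of_nonneg_right h1 hW0.le
          _ = (DS * (sP / y)) * (1 + Cr * M * LL / Real.log (2 + M)) := by ring
          _ ≤ (3 * F * (1 / (G * P'))) * (6 * Cr * M * LL / Real.log P') := by
              apply mul_le_mul hdd (le_trans h2 h3) (by positivity) (by positivity)
          _ = (288 * Cr * R * LL * F / Real.log P') * G := by
              rw [hMG]; field_simp; ring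
          _ ≤ (288 * Cr * R * LL * F / Real.log P') * 1 := by
              apply mul_le_mul_of_nonneg_left hG1 (by positivity)
          _ ≤ (1600 * Cr + 3 * Cp) * R * LL * F / Real.log P' := by
              rw [mul_one]
              apply div_le_div_of_nonneg_right _ hlP'0.le
              apply mul_le_mul_of_nonneg_right _ hF0
              apply mul_le_mul_of_nonneg_right _ (by linarith)
              apply mul_le_mul_of_nonneg_right _ (by linarith)
              linarith
      · push Not at hMs
        -- G^2 ≤ 1/(16 R sP')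
        have h1 : 16 * R * G ^ 2 * sP' < 1 := by
          have : 16 * R * G ^ 2 * sP' * sP' < 1 * sP' := by
            calc 16 * R * G ^ 2 * sP' * sP' = M := by rw [hMG, ← hsP'sq]; ring
              _ < sP' := hMs
              _ = 1 * sP' := by ring
          exact lt_of_mul_lt_mul_right this hsP'0.le
        -- sP' = exp (log P' / 2)
        have e3 : sP' = Real.exp (Real.log P' / 4) ^ 2 := by
          rw [← Real.exp_nat_mul]
          have : ((2 : ℕ) : ℝ) * (Real.log P' / 4) = Real.log P' / 2 := by push_cast; ring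
          rw [this, hsP', Real.sqrt_eq_rpow, Real.rpow_def_of_pos hP'0]
          ring_nf
        set E := Real.exp (Real.log P' / 4) with hE
        have hE0 : 0 < E := Real.exp_pos _
        have h2 : (G * E) ^ 2 < 1 := by
          have : (G * E) ^ 2 = G ^ 2 * sP' := by rw [e3]; ring
          rw [this]
          have h20 : 0 < G ^ 2 * sP' := by positivity
          have h21 : 16 * R * G ^ 2 * sP' = (16 * R) * (G ^ 2 * sP') := by ring
          rw [h21] at h1
          have h22 : 1 * (G ^ 2 * sP') ≤ (16 * R) * (G ^ 2 * sP') :=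
            mul_le_mul_of_nonneg_right (by linarith) h20.le
          linarith
        have h3 : G * E < 1 := by
          by_contra h
          push Not at h
          have := one_le_pow₀ (n := 2) h
          linarith
        have h4 : Real.log P' ≤ 4 * E := log_le_four_exp (by linarith)
        have h5 : G * Real.log P' ≤ 4 := by
          have := mul_le_mul_of_nonneg_left h4 hG0.le
          linarith
        refine le_trans hB2 ?_
        rw [le_div_iff₀ hlP'0]
        calc 384 * R * F * G * Real.log P' = 384 * (G * Real.log P') * (R * F) := by ring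
          _ ≤ 384 * 4 * (R * F) := by
              apply mul_le_mul_of_nonneg_right _ (by positivity)
              linarith
          _ ≤ (1600 * Cr + 3 * Cp) * (R * F) := by
              apply mul_le_mul_of_nonneg_right _ (by positivity)
              linarith
          _ ≤ (1600 * Cr + 3 * Cp) * (R * F) * LL := by
              apply le_mul_of_one_le_right (by positivity) hLL1
          _ = _ := by ring
  · refine le_trans hB2 ?_
    apply mul_le_mul_of_nonneg_right _ hG0.le
    apply mul_le_mul_of_nonneg_right _ hF0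
    apply mul_le_mul_of_nonneg_right _ (by linarith)
    linarith
  · refine le_trans hB3' ?_
    rw [mul_one_div]
    apply div_le_div_of_nonneg_right _ hG0.le
    apply mul_le_mul_of_nonneg_right _ hF0
    have h11 : (1600 * Cr + 3 * Cp) * 1 ≤ (1600 * Cr + 3 * Cp) * R :=
      mul_le_mul_of_nonneg_left hR (by linarith)
    linarith

theorem far_norm {k : ℕ} {R R0 W : ℝ} {St : ℕ → ℕ → Prop} (hF : Fam2 k R R0 W St)
    {y P z P' Y P'' F : ℝ} (hy : 0 < y) (hP : 2 * W ≤ P) (hP' : 0 < P') (hP'' : 0 < P'')
    (hY : 0 < Y) (hz : 0 < z)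
    (hz4 : 4 * (16 * R / P) * z ^ 2 < 1) (h1 : Fn St (2 * y * P' / Y) P'' ≤ F)
    (h2 : Fn St (y * P' / Y) P'' ≤ F) (h3 : Fn St (y * P' / (2 * Y)) P'' ≤ F) :
    ((Far St y P z P' Y P'').card : ℝ) * (Real.sqrt P / y) ≤
      4 * F * Real.exp (-(Real.log Y - (Real.log P + Real.log P') / 2)) *
        Real.exp ((Real.log P' - Real.log P'') / 2) := by
  have hR := hF.one
  have hRR := hF.le
  have hWW := hF.large
  have hP0 : 0 < P := by linarith
  have hF0 : 0 ≤ F := by
    refine le_trans ?_ h2
    unfold Fn
    positivity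
  set sP := Real.sqrt P with hsP
  set sP' := Real.sqrt P' with hsP'
  set sQ := Real.sqrt P'' with hsQ
  have hsP0 : 0 < sP := Real.sqrt_pos.mpr hP0
  have hsP'0 : 0 < sP' := Real.sqrt_pos.mpr hP'
  have hsQ0 : 0 < sQ := Real.sqrt_pos.mpr hP''
  have hsPsq : sP ^ 2 = P := Real.sq_sqrt hP0.le
  have hsP'sq : sP' ^ 2 = P' := Real.sq_sqrt hP'.le
  have hsQsq : sQ ^ 2 = P'' := Real.sq_sqrt hP''.le
  have e1 : Real.log P = 2 * Real.log sP := by
    rw [← hsPsq, Real.log_pow]; norm_num
  have e2 : Real.log P' = 2 * Real.log sP' := by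
    rw [← hsP'sq, Real.log_pow]; norm_num
  have e3 : Real.log P'' = 2 * Real.log sQ := by
    rw [← hsQsq, Real.log_pow]; norm_num
  have hexp : Real.exp (-(Real.log Y - (Real.log P + Real.log P') / 2)) *
        Real.exp ((Real.log P' - Real.log P'') / 2) = sP * P' / (Y * sQ) := by
    rw [← Real.exp_add, e1, e2, e3, show -(Real.log Y - (2 * Real.log sP + 2 * Real.log sP') / 2) +
      (2 * Real.log sP' - 2 * Real.log sQ) / 2 =
      (Real.log sP + Real.log sP' + Real.log sP') - (Real.log Y + Real.log sQ) by ring,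
      Real.exp_sub, Real.exp_add, Real.exp_add, Real.exp_add,
      Real.exp_log hY, Real.exp_log hsP0, Real.exp_log hsP'0, Real.exp_log hsQ0, ← hsP'sq]
    ring
  rw [mul_assoc, hexp]
  have hW0 : 0 < sP / y := by positivity
  have hc := LS.far_card hF (y := y) (P := P) (z := z) (P' := P') (Y := Y) (P'' := P'') hy hP hP' hY
    hz hz4
  rw [Fn_eq (by positivity) hP'', Fn_eq (by positivity) hP'', Fn_eq (by positivity) hP''] at hc
  rw [← hsQ] at hc
  have hc2 := mul_le_mul_of_nonneg_right hc hW0.le
  refine le_trans hc2 ?_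
  have e5 : (Fn St (2 * y * P' / Y) P'' * (2 * y * P' / Y) / sQ + Fn St (y * P' / Y) P'' *
      (y * P' / Y) / sQ + Fn St (y * P' / (2 * Y)) P'' * (y * P' / (2 * Y)) / sQ) * (sP / y) =
      (2 * Fn St (2 * y * P' / Y) P'' + Fn St (y * P' / Y) P'' +
        Fn St (y * P' / (2 * Y)) P'' / 2) * (sP * P' / (Y * sQ)) := by
    field_simp
  rw [e5]
  apply mul_le_mul_of_nonneg_right _ (by positivity)
  linarith

theorem sml_norm : ∃ C : ℝ, 1 ≤ C ∧ ∀ (k : ℕ) (R R0 W : ℝ) (St : ℕ → ℕ → Prop), Fam2 k R R0 W St →
    ∀ y P z : ℝ, 0 < y → 2 * W ≤ P → 1 ≤ z → z = Real.sqrt (P / (256 * R)) →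
    1600 ≤ Real.log P → 9 / 10 * Real.log P ≤ Real.log y →
    ((Sml St y P z (Real.exp (Real.sqrt (Real.log P) / 4))).card : ℝ) * (Real.sqrt P / y) ≤
      C * R * Real.exp (-(7 / 10 * Real.sqrt (Real.log P))) := by
  obtain ⟨C, hC1, hC⟩ := LS.sml_card
  refine ⟨16 * C, by linarith, ?_⟩
  intro k R R0 W St hF y P z hy hP hz hzeq hlP hly
  have hR := hF.one
  have hRR := hF.le
  have hWW := hF.large
  have hP0 : 0 < P := by linarith
  set p := Real.log P with hp
  set r := Real.sqrt p with hr
  have hr0 : 0 ≤ r := Real.sqrt_nonneg _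
  have hrsq : r ^ 2 = p := Real.sq_sqrt (by linarith)
  have hr40 : 40 ≤ r := by
    rw [hr]
    apply Real.le_sqrt_of_sq_le
    norm_num; linarith
  set w := Real.exp (r / 4) with hw
  have hlw : Real.log w = r / 4 := by rw [hw, Real.log_exp]
  have hw3000 : 3000 ≤ w := by
    have h1 : Real.exp 10 ≤ w := Real.exp_le_exp.mpr (by linarith)
    have h2 : (3000 : ℝ) ≤ Real.exp 10 := by
      have h3 : Real.exp 10 = (Real.exp 1) ^ 10 := by rw [← Real.exp_nat_mul]; norm_num
      rw [h3]
      have h4 := Real.exp_one_gt_d9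
      calc (3000 : ℝ) ≤ 2.7 ^ 10 := by norm_num
        _ ≤ (Real.exp 1) ^ 10 := by
          apply pow_le_pow_left₀ (by norm_num)
          linarith
    linarith
  have hz0 : 0 < z := by linarith
  have hzsq : z ^ 2 = P / (256 * R) := by
    rw [hzeq]; exact Real.sq_sqrt (by positivity)
  have hz4 : 4 * (16 * R / P) * z ^ 2 < 1 := by
    rw [hzsq]
    have : 4 * (16 * R / P) * (P / (256 * R)) = 1 / 4 := by
      field_simp; norm_num
    rw [this]; norm_num
  have hlz : Real.log z ≤ p / 2 := by
    have h1 : 2 * Real.log z = Real.log (P / (256 * R)) := by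
      rw [← hzsq, Real.log_pow]; norm_num
    have h2 : Real.log (P / (256 * R)) ≤ p := by
      rw [hp]
      apply Real.log_le_log (by positivity)
      apply div_le_self hP0.le
      linarith
    linarith
  have hl2 : Real.log 2 ≤ 1 := by
    have := Real.log_two_lt_d9; linarith
  have hlog : 3 / 10 * p ≤ Real.log (y / (2 * z)) := by
    rw [Real.log_div (by positivity) (by positivity), Real.log_mul (by norm_num) (by positivity)]
    linarith
  have h2zy : 2 * z ≤ y := by
    by_contra h
    push Not at h
    have h1 : Real.log y ≤ Real.log (2 * z) := Real.log_le_log hy h.le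
    rw [Real.log_mul (by norm_num) (by positivity)] at h1
    linarith
  have hc := hC k R R0 W St hF y P z w hy hP hz hz4 hw3000 h2zy
  have hW0 : 0 < Real.sqrt P / y := by positivity
  have hc2 := mul_le_mul_of_nonneg_right hc hW0.le
  refine le_trans hc2 ?_
  have hsz : Real.sqrt P / z ≤ 16 * R := by
    have h1 : Real.sqrt P = Real.sqrt (256 * R) * z := by
      rw [hzeq, ← Real.sqrt_mul (by positivity)]
      congr 1
      field_simp
    rw [h1, mul_div_assoc, div_self hz0.ne', mul_one]
    have h2 : Real.sqrt (256 * R) ≤ Real.sqrt ((16 * R) ^ 2) := by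
      apply Real.sqrt_le_sqrt
      nlinarith
    rwa [Real.sqrt_sq (by positivity)] at h2
  have hexp : Real.exp (-(Real.log (y / (2 * z)) / Real.log w)) ≤ Real.exp (-(6 / 5 * r)) := by
    apply Real.exp_le_exp.mpr
    rw [hlw]
    have h1 : 6 / 5 * r ≤ Real.log (y / (2 * z)) / (r / 4) := by
      rw [le_div_iff₀ (by linarith)]
      calc 6 / 5 * r * (r / 4) = 3 / 10 * r ^ 2 := by ring
        _ = 3 / 10 * p := by rw [hrsq]
        _ ≤ _ := hlog
    linarith
  have hr4 : r / 4 ≤ Real.exp (r / 4) := by
    have := Real.add_one_le_exp (r / 4)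
    linarith
  calc C * (y * w / z) * Real.log w * Real.exp (-(Real.log (y / (2 * z)) / Real.log w)) *
        (Real.sqrt P / y)
      = C * (Real.sqrt P / z) * (w * Real.log w * Real.exp (-(Real.log (y / (2 * z)) /
          Real.log w))) := by
        field_simp
    _ ≤ C * (16 * R) * (w * Real.log w * Real.exp (-(Real.log (y / (2 * z)) / Real.log w))) := by
        apply mul_le_mul_of_nonneg_right _ _
        · exact mul_le_mul_of_nonneg_left hsz (by linarith)
        · rw [hlw]; positivity
    _ ≤ C * (16 * R) * (Real.exp (r / 4) * Real.exp (r / 4) * Real.exp (-(6 / 5 * r))) := by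
        apply mul_le_mul_of_nonneg_left _ (by positivity)
        apply mul_le_mul _ hexp (Real.exp_pos _).le (by positivity)
        rw [hlw]
        exact mul_le_mul_of_nonneg_left hr4 (by positivity)
    _ = 16 * C * R * Real.exp (-(7 / 10 * r)) := by
        rw [← Real.exp_add, ← Real.exp_add]
        ring_nf


end Pool.Agent.H96.LS
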